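import Pool.Agent.P.MP_3aa27f_pr.F.Final

/-! Hutchcroft's conjecture: `p_h < p_u` for quasi-transitive nonunimodular groups with a
nonamenable finite union of levels. -/

open MeasureTheory Pool.Agent.P.MP_3aa27f_pr

namespace Pool.Agent.Results.MP_3aa27f_pr.Conjecture

/-- `|Stab_v u| = |Stab_u v|` whenever `u` and `v` lie in the same `Γ`-orbit. -/
def Unimodular {V : Type} {G : SimpleGraph V} (Γ : Subgroup (G ≃g G)) : Prop :=
  ∀ u v : V, (∃ g ∈ Γ, g u = v) →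
    {z | ∃ k ∈ Stab Γ v, k.1 u = z}.encard = {z | ∃ k ∈ Stab Γ u, k.1 v = z}.encard

theorem result {V : Type} (G : SimpleGraph V) [G.LocallyFinite] (hG : G.Connected)
    (Γ : Subgroup (G ≃g G)) (hΓ : QuasiTransitive Γ) (hn : ¬ Unimodular Γ)
    [MeasurableSpace Γ.topologicalClosure] [BorelSpace Γ.topologicalClosure]
    (μ : Measure Γ.topologicalClosure) [μ.IsHaarMeasure] (u : V) (t : Finset ℝ)
    (hne : {v | modular Γ μ u v ∈ t}.Nonempty)
    (hna : ¬ Amenable (G.induce {v | modular Γ μ u v ∈ t})) :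
    pH G (modular Γ μ) < pU G := by
  have hm := wt_haar hG Γ μ
  obtain ⟨S, hS, hq⟩ := hΓ
  refine F.main_wt hG hm ⟨hS.toFinset, fun v => (hq v).imp fun g hg =>
    ⟨Γ.le_topologicalClosure hg.1, hS.mem_toFinset.2 hg.2⟩⟩ (by_contra fun h => hn ?_) u t hne hna
  rintro x _ ⟨g, hg, rfl⟩
  have e : ∀ x y, {z | ∃ k ∈ Stab Γ x, k.1 y = z} = orb Γ.topologicalClosure x y := fun x y =>
    Set.ext fun z => ⟨fun ⟨k, h1, h2⟩ => ⟨k.1, k.2, h1, h2⟩, fun ⟨k, h0, h1, h2⟩ => ⟨⟨k, h0⟩, h1, h2⟩⟩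
  have h1 := hm.rel x (g x)
  rw [not_not.1 fun h' => h ⟨g, Γ.le_topologicalClosure hg, x, h'⟩, mul_right_inj' (hm.pos x).ne',
    Nat.cast_inj] at h1
  rw [e, e, ← (orb_finite hG _ _ _).cast_ncard_eq, ← (orb_finite hG _ _ _).cast_ncard_eq, h1]

end Pool.Agent.Results.MP_3aa27f_pr.Conjecture
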