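import Pool.Agent.P.MP_3aa27f_pr.F.Ext

/-! `p_h < p_{2 → 2}` for quasi-transitive nonunimodular groups with a nonamenable finite union
of levels. -/

open MeasureTheory Pool.Agent.P.MP_3aa27f_pr
open scoped ENNReal NNReal

namespace Pool.Agent.Results.MP_3aa27f_pr.HeavyL2

/-- `|Stab_v u| = |Stab_u v|` whenever `u` and `v` lie in the same `Γ`-orbit. -/
def Unimodular {V : Type} {G : SimpleGraph V} (Γ : Subgroup (G ≃g G)) : Prop :=
  ∀ u v : V, (∃ g ∈ Γ, g u = v) →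
    {z | ∃ k ∈ Stab Γ v, k.1 u = z}.encard = {z | ∃ k ∈ Stab Γ u, k.1 v = z}.encard

/-- The two-point function `τ_p(x, y) = P_p(x ↔ y)`. -/
noncomputable def twoPoint {V : Type} (G : SimpleGraph V) (p : unitInterval) (x y : V) : ℝ≥0∞ :=
  percMeasure V p {ω | (openGraph G ω).Reachable x y}

/-- `p_{2 → 2}(G)`: the supremum of the `p ∈ [0, 1]` for which the nonnegative matrix `τ_p` is a
bounded operator on `ℓ²(V)`. -/
noncomputable def pL2 {V : Type} (G : SimpleGraph V) : ℝ :=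
  sSup {p : ℝ | ∃ hp : p ∈ unitInterval, ∃ c : ℝ≥0, ∀ f : V → ℝ≥0∞,
    ∑' x, (∑' y, twoPoint G ⟨p, hp⟩ x y * f y) ^ 2 ≤ c * ∑' y, f y ^ 2}

theorem result {V : Type} (G : SimpleGraph V) [G.LocallyFinite] (hG : G.Connected)
    (Γ : Subgroup (G ≃g G)) (hΓ : QuasiTransitive Γ) (hn : ¬ Unimodular Γ)
    [MeasurableSpace Γ.topologicalClosure] [BorelSpace Γ.topologicalClosure]
    (μ : Measure Γ.topologicalClosure) [μ.IsHaarMeasure] (u : V) (t : Finset ℝ)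
    (hne : {v | modular Γ μ u v ∈ t}.Nonempty)
    (hna : ¬ Amenable (G.induce {v | modular Γ μ u v ∈ t})) :
    pH G (modular Γ μ) < pL2 G := by
  obtain ⟨-, S, ⟨Z⟩, C, C0, hC⟩ := F.ext_haar hG Γ hΓ hn μ u t hne hna
  have := countable_vert hG
  obtain ⟨p₁, h1, h2, h3⟩ := S.exists_p1
  obtain ⟨q, hq, c, hc, hN⟩ := F.ext_norm S Z h1 h2
  refine (F.ext_pH_le S Z C0 hC h2 h3).trans_lt (lt_of_lt_of_le hq ?_)
  refine le_csSup ⟨1, fun p ⟨hp, _⟩ => hp.2⟩ ⟨q.2, (c ^ 2).toNNReal, fun f => ?_⟩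
  have h := pow_le_pow_left' (hN.apply_n2 f) 2
  rw [mul_pow, F.n2_sq, F.n2_sq] at h
  rw [ENNReal.coe_toNNReal (ENNReal.pow_ne_top hc)]
  simpa only [twoPoint, F.ext_tau] using h

end Pool.Agent.Results.MP_3aa27f_pr.HeavyL2
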