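import Pool.Agent.P.MP_3aa27f_pr.F.TiltH

/-! `p_t = p_h` for quasi-transitive nonunimodular groups with a nonamenable finite union of
levels. -/

open MeasureTheory Pool.Agent.P.MP_3aa27f_pr
open scoped ENNReal

namespace Pool.Agent.Results.MP_3aa27f_pr.TiltHeavy

/-- `|Stab_v u| = |Stab_u v|` whenever `u` and `v` lie in the same `Γ`-orbit. -/
def Unimodular {V : Type} {G : SimpleGraph V} (Γ : Subgroup (G ≃g G)) : Prop :=
  ∀ u v : V, (∃ g ∈ Γ, g u = v) →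
    {z | ∃ k ∈ Stab Γ v, k.1 u = z}.encard = {z | ∃ k ∈ Stab Γ u, k.1 v = z}.encard

/-- The tilted susceptibility `χ_{p,s}(x) = ∑_y P_p(x ↔ y) Δ(x, y) ^ s`. -/
noncomputable def tiltedSusc {V : Type} (G : SimpleGraph V) (Δ : V → V → ℝ) (p : unitInterval)
    (s : ℝ) (x : V) : ℝ≥0∞ :=
  ∑' y, percMeasure V p {ω | (openGraph G ω).Reachable x y} * ENNReal.ofReal (Δ x y ^ s)

/-- The tiltability threshold: the supremum of the `p ∈ [0, 1]` such that `χ_{p,s}` is finite at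
every vertex for some real `s`. -/
noncomputable def pT {V : Type} (G : SimpleGraph V) (Δ : V → V → ℝ) : ℝ :=
  sSup {p : ℝ | ∃ hp : p ∈ unitInterval, ∃ s : ℝ, ∀ x, tiltedSusc G Δ ⟨p, hp⟩ s x < ∞}

theorem result {V : Type} (G : SimpleGraph V) [G.LocallyFinite] (hG : G.Connected)
    (Γ : Subgroup (G ≃g G)) (hΓ : QuasiTransitive Γ) (hn : ¬ Unimodular Γ)
    [MeasurableSpace Γ.topologicalClosure] [BorelSpace Γ.topologicalClosure]
    (μ : Measure Γ.topologicalClosure) [μ.IsHaarMeasure] (u : V) (t : Finset ℝ)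
    (hne : {v | modular Γ μ u v ∈ t}.Nonempty)
    (hna : ¬ Amenable (G.induce {v | modular Γ μ u v ∈ t})) :
    pT G (modular Γ μ) = pH G (modular Γ μ) := by
  obtain ⟨m0, S, ⟨Z⟩, C, C0, hC⟩ := F.ext_haar hG Γ hΓ hn μ u t hne hna
  have := countable_vert hG
  obtain ⟨p₁, h1, h2, h3⟩ := S.exists_p1
  refine Eq.trans ?_ (F.tilth_pH S Z m0 C0 hC h1 h2 h3).symm
  have z0 : ∀ x, tiltedSusc G (modular Γ μ) 0 0 x < ∞ := fun x => by
    rw [tiltedSusc, tsum_eq_single x fun y hy => by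
      rw [F.ext_tau, F.tau, F.PM_eq_ofReal, Pr_Cn_zero hy.symm, ENNReal.ofReal_zero, zero_mul]]
    exact ENNReal.mul_lt_top (measure_lt_top (F.mu V 0) _) ENNReal.ofReal_lt_top
  refine csSup_eq_of_forall_le_of_forall_lt_exists_gt ⟨0, unitInterval.zero_mem, 0, z0⟩
    (fun q ⟨hq, s, h⟩ => not_lt.1 fun h' => ?_) fun w hw => ?_
  · refine (h S.o).ne ?_
    simpa only [tiltedSusc, F.ext_tau, modular] using
      F.tilth_super S Z m0 C0 hC (h3 ⟨q, hq⟩ h') s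
  · rcases lt_or_ge w 0 with w0 | w0
    · exact ⟨0, ⟨unitInterval.zero_mem, 0, z0⟩, w0⟩
    obtain ⟨q, q1, q2⟩ := exists_between hw
    have hq : q ∈ unitInterval := ⟨w0.trans q1.le, q2.le.trans p₁.2.2⟩
    refine ⟨q, ⟨hq, 1 / 2, fun x => ?_⟩, q1⟩
    simpa only [tiltedSusc, F.ext_tau, modular] using
      (F.tilth_sub S Z m0 C0 hC h1 h2 (q := ⟨q, hq⟩) q2 x).lt_top

end Pool.Agent.Results.MP_3aa27f_pr.TiltHeavy
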